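import Pool.Agent.W788.NW.Stm

/-!
# Project NW, part NU: the spine chain is dominated by the plain one
-/

namespace Pool.Agent.W446.NW.NU

open Finset Pool.Agent.W788.NV Pool.Agent.W788.NW

/-! ## general facts on semigroups -/

section general

variable {S ι : Type} [Fintype S] [DecidableEq S] [Fintype ι]

theorem sg_sum (h : MK) (r : ι → ℝ) (m : ι → S → S) (t : ℝ) (F : S → ℝ) (x : S) :
    sg r m t F x = ∑ k, F k * sg r m t (fun y => if y = k then 1 else 0) x := by
  rw [← h.lin S ι S r m F (fun k y => if y = k then 1 else 0) x t]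
  have : F = fun y => ∑ k, F k * (if y = k then 1 else 0) := by
    funext y; simp
  conv_lhs => rw [this]

theorem sg_add (h : MK) (r : ι → ℝ) (m : ι → S → S) (t : ℝ) (F H : S → ℝ) (x : S) :
    sg r m t (fun y => F y + H y) x = sg r m t F x + sg r m t H x := by
  rw [sg_sum h r m t F x, sg_sum h r m t H x, sg_sum h r m t (fun y => F y + H y) x,
    ← Finset.sum_add_distrib]
  exact Finset.sum_congr rfl fun k _ => add_mul _ _ _

theorem sg_smul (h : MK) (r : ι → ℝ) (m : ι → S → S) (t c : ℝ) (F : S → ℝ) (x : S) :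
    sg r m t (fun y => c * F y) x = c * sg r m t F x := by
  rw [sg_sum h r m t F x, sg_sum h r m t (fun y => c * F y) x, Finset.mul_sum]
  exact Finset.sum_congr rfl fun k _ => mul_assoc _ _ _

theorem gf_sum (r : ι → ℝ) (m : ι → S → S) (F : S → ℝ) :
    (fun y => ∑ k, F k * gf r m (fun y => if y = k then 1 else 0) y) = gf r m F := by
  funext y
  unfold gf
  simp_rw [Finset.mul_sum]
  rw [Finset.sum_comm]
  refine Finset.sum_congr rfl fun e _ => ?_
  have h1 : ∀ k, F k * (r e * ((if m e y = k then (1 : ℝ) else 0) - (if y = k then 1 else 0))) =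
      r e * ((if m e y = k then F k else 0) - (if y = k then F k else 0)) := by
    intro k
    split_ifs <;> ring
  simp_rw [h1]
  rw [← Finset.mul_sum, Finset.sum_sub_distrib]
  simp

theorem sg_deriv (h : MK) (r : ι → ℝ) (m : ι → S → S) (F : ℝ → S → ℝ) (F' : S → ℝ) (x : S)
    (t : ℝ) (hF : ∀ y, HasDerivAt (fun t => F t y) (F' y) t) :
    HasDerivAt (fun t => sg r m t (F t) x) (sg r m t (gf r m (F t)) x + sg r m t F' x) t := by
  have e1 : (fun t => sg r m t (F t) x) =
      fun t => ∑ k, F t k * sg r m t (fun y => if y = k then 1 else 0) x :=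
    funext fun t => sg_sum h r m t (F t) x
  rw [e1]
  have e2 : HasDerivAt (fun t => ∑ k, F t k * sg r m t (fun y => if y = k then 1 else 0) x)
      (∑ k, (F' k * sg r m t (fun y => if y = k then 1 else 0) x +
        F t k * sg r m t (gf r m (fun y => if y = k then 1 else 0)) x)) t :=
    HasDerivAt.fun_sum fun k _ => (hF k).mul (h.deriv S ι r m _ x t)
  refine e2.congr_deriv ?_
  rw [Finset.sum_add_distrib, ← sg_sum h r m t F' x]
  have e3 : ∑ k, F t k * sg r m t (gf r m (fun y => if y = k then 1 else 0)) x =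
      sg r m t (gf r m (F t)) x := by
    rw [← h.lin S ι S r m (F t) (fun k => gf r m (fun y => if y = k then 1 else 0)) x t,
      gf_sum]
  rw [e3, add_comm]

end general

section voter

variable {V : Type} [Fintype V] [DecidableEq V] {q : ℕ}

theorem hit_mean (k : (V → Fin q) → ℝ) (z : V → Fin q) (Φ : Mp V q) :
    hit k z Φ = mean k (fun x => if Φ x = z then 1 else 0) := by
  unfold hit mean
  exact Finset.sum_congr rfl fun x _ => by simp

theorem hit_deriv (h : MK) (h4 : S_LAW) (G : SimpleGraph V) (θ : ℝ) (hq : 1 ≤ q) (h0 : 0 < θ)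
    (h1 : θ ≤ 1) (hd : ∀ v, 1 ≤ dg G v) (x0 z : V → Fin q) (Φ : Mp V q) (s : ℝ) :
    HasDerivAt (fun s => hit (law G q θ x0 s) z Φ)
      (gf (mrate G q θ) (mR (V := V) (q := q)) (hit (law G q θ x0 s) z) Φ) s := by
  have hl := (h4 V G q θ hq h0 h1 hd).2.1 x0
  have e1 : (fun s => hit (law G q θ x0 s) z Φ) =
      fun s => sg (mrate G q θ) (act (V := V) (q := q)) s (fun x => if Φ x = z then 1 else 0) x0 := by
    funext s
    rw [hit_mean, hl]
    rfl
  rw [e1]
  refine (h.deriv _ _ (mrate G q θ) (act (V := V) (q := q)) _ x0 s).congr_deriv ?_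
  have e2 : sg (mrate G q θ) (act (V := V) (q := q)) s
      (gf (mrate G q θ) (act (V := V) (q := q)) (fun x => if Φ x = z then 1 else 0)) x0 =
      mean (law G q θ x0 s)
        (gf (mrate G q θ) (act (V := V) (q := q)) (fun x => if Φ x = z then 1 else 0)) := by
    rw [hl]; rfl
  rw [e2]
  unfold mean gf
  simp_rw [Finset.mul_sum]
  rw [Finset.sum_comm]
  refine Finset.sum_congr rfl fun e _ => ?_
  unfold hit mR
  rw [← Finset.sum_sub_distrib, Finset.mul_sum]
  refine Finset.sum_congr rfl fun x _ => ?_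
  split_ifs <;> ring

theorem hit_st (k : (V → Fin q) → ℝ) (z : V → Fin q) (w : V) (a : Fin q) :
    hit k z (st w a).2 = if z w = a then ∑ c, k (Function.update z w c) else 0 := by
  unfold hit st
  by_cases hz : z w = a
  · rw [if_pos hz]
    symm
    rw [← Finset.sum_filter]
    refine Finset.sum_bij (fun c _ => Function.update z w c) ?_ ?_ ?_ ?_
    · intro c _
      rw [Finset.mem_filter]
      refine ⟨Finset.mem_univ _, ?_⟩
      show Function.update (Function.update z w c) w a = z
      rw [Function.update_idem, ← hz, Function.update_eq_self]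
    · intro c _ c' _ h
      have := congrFun h w
      simpa using this
    · intro x hx
      rw [Finset.mem_filter] at hx
      refine ⟨x w, Finset.mem_univ _, ?_⟩
      rw [← hx.2, Function.update_idem, Function.update_eq_self]
    · intro c _; rfl
  · rw [if_neg hz]
    refine Finset.sum_eq_zero fun x _ => ?_
    rw [if_neg]
    intro h
    apply hz
    rw [← h]
    simp

theorem nu_ (h : MK) (h1 : S_NUA) (h2 : S_NUB) (h3 : S_FE) (h4 : S_LAW) (h5 : S_INV)
    (h6 : S_CLO) (h7 : S_DR) (h8 : S_TOT) (_h9 : S_GEN) : S_NU := by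
  intro V _ _ G q θ Δ η S ω H a b x0 z w T u hu hT
  have hq : 1 ≤ q := le_trans (by norm_num) H.q2
  have hq0 : (0 : ℝ) < q := by exact_mod_cast hq
  have hθ0 := H.t0
  have hθ1 := H.t1.le
  set E := cE q θ Δ η S with hE
  have hS0 : 0 ≤ S := le_trans zero_le_one H.S1
  have hE0 : 0 ≤ E := by
    rw [hE]; unfold cE
    have : Real.exp (-1) < 1 := by
      rw [Real.exp_lt_one_iff]; norm_num
    have h9 : 0 < θ * (1 - Real.exp (-1)) := mul_pos hθ0 (by linarith)
    positivity
  have hlaw : ∀ s, 0 ≤ s → ∀ x, 0 ≤ law G q θ x0 s x := fun s hs =>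
    ((h4 V G q θ hq hθ0 hθ1 H.d1).1 x0 s hs).1
  have hmr : ∀ e : (V × Fin q) ⊕ (V × V), 0 ≤ mrate G q θ e :=
    (h8 V G q θ hq hθ0.le hθ1 H.d1).1
  have hsr : ∀ e, 0 ≤ srate G q θ (V := V) e := by
    intro e
    cases e with
    | inl e => exact hmr e
    | inr e => exact hmr (Sum.inr e)
  let I : V × Mp V q → Prop := fun p => dep p.2 p.1 = ∅
  have hI : ∀ e x, I x → srate G q θ e ≠ 0 → I (sm (V := V) a b e x) := fun e x hx _ =>
    h6 V q a b e x hx
  have hIst : I (st w a) := ((h7 V q (id : Mp V q) w).2.2.2.1 a w).2 rfl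
  -- the function
  set N : ℝ → ℝ := fun t => sx G q θ a b t (fun p => hit (law G q θ x0 (T - t)) z p.2) (st w a)
    with hN
  let N' : ℝ → ℝ := fun t =>
    sx G q θ a b t (gf (srate G q θ) (sm a b) (fun p => hit (law G q θ x0 (T - t)) z p.2))
      (st w a) +
    sx G q θ a b t (fun p => -gf (mrate G q θ) (mR (V := V) (q := q))
      (hit (law G q θ x0 (T - t)) z) p.2) (st w a)
  have hNd : ∀ t, HasDerivAt N (N' t) t := by
    intro t
    refine sg_deriv h (srate G q θ) (sm (V := V) a b)
      (fun t p => hit (law G q θ x0 (T - t)) z p.2) _ (st w a) t ?_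
    intro p
    have e1 := hit_deriv h h4 G θ hq hθ0 hθ1 H.d1 x0 z p.2 (T - t)
    have e2 : HasDerivAt (fun t : ℝ => T - t) (-1) t := by
      simpa using (hasDerivAt_id t).const_sub T
    have e3 := e1.comp t e2
    refine e3.congr_deriv ?_
    ring
  set β : ℝ → ℝ := fun t => 2 * q * E * (Δ * S * Real.exp (-(θ / (2 * q)) * t)) with hβ
  have hle : ∀ t, 0 ≤ t → 1 ≤ T - t → N' t ≤ β t * N t := by
    intro t ht hTt
    have hν0 := hlaw (T - t) (by linarith)
    have hfe : ∀ x v c, law G q θ x0 (T - t) (Function.update x v c) ≤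
        E * law G q θ x0 (T - t) x := fun x v c =>
      h3 V G q θ Δ η S ω H x0 x v c (T - t) hTt
    have e1 : N' t = sg (srate G q θ) (sm (V := V) a b) t
        (fun p => gf (srate G q θ) (sm a b) (fun p => hit (law G q θ x0 (T - t)) z p.2) p +
          -gf (mrate G q θ) (mR (V := V) (q := q)) (hit (law G q θ x0 (T - t)) z) p.2) (st w a) :=
      (sg_add h _ _ t _ _ _).symm
    have e2 : N' t ≤ sg (srate G q θ) (sm (V := V) a b) t
        (fun p => 2 * q * E * (nb G p * hit (law G q θ x0 (T - t)) z p.2)) (st w a) := by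
      rw [e1]
      refine (h5 _ _ (srate G q θ) (sm (V := V) a b) I hI _ _ (st w a) t 0 hIst).2.1 hsr ht ?_
      intro p hp
      have := h1 V G q θ hq hθ0.le hθ1 H.d1 a b (law G q θ x0 (T - t)) z E p hν0 hE0 hfe hp
      linarith
    rw [sg_smul h] at e2
    have e3 := h2 V G q θ Δ η S ω H a b z w t (law G q θ x0 (T - t)) hν0 ht
    calc N' t
        ≤ 2 * q * E * sg (srate G q θ) (sm (V := V) a b) t
            (fun p => nb G p * hit (law G q θ x0 (T - t)) z p.2) (st w a) := e2
      _ ≤ 2 * q * E * (Δ * S * Real.exp (-(θ / (2 * q)) * t) * N t) := by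
          refine mul_le_mul_of_nonneg_left e3 (by positivity)
      _ = β t * N t := by rw [hβ]; ring
  -- the Gronwall factor
  set c : ℝ := 4 * q ^ 2 * E * Δ * S / θ with hc
  have hc0 : 0 ≤ c := by positivity
  let B : ℝ → ℝ := fun t => c * (1 - Real.exp (-(θ / (2 * q)) * t))
  have hBd : ∀ t, HasDerivAt B (β t) t := by
    intro t
    have e1 : HasDerivAt (fun t : ℝ => -(θ / (2 * q)) * t) (-(θ / (2 * q))) t := by
      simpa using (hasDerivAt_id t).const_mul (-(θ / (2 * q)))
    have e2 := ((e1.exp).const_sub 1).const_mul c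
    refine e2.congr_deriv ?_
    rw [hβ, hc]
    field_simp
    ring
  have hgd : ∀ t, HasDerivAt (fun t => N t * Real.exp (-B t))
      (N' t * Real.exp (-B t) + N t * (Real.exp (-B t) * (-β t))) t := fun t =>
    (hNd t).mul ((hBd t).neg.exp)
  have hanti : AntitoneOn (fun t => N t * Real.exp (-B t)) (Set.Icc 0 (T - 1)) := by
    refine antitoneOn_of_deriv_nonpos (convex_Icc 0 (T - 1)) ?_ ?_ ?_
    · exact fun t _ => (hgd t).continuousAt.continuousWithinAt
    · exact fun t _ => (hgd t).differentiableAt.differentiableWithinAt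
    · intro t ht
      rw [interior_Icc] at ht
      rw [(hgd t).deriv]
      have e1 := hle t ht.1.le (by linarith [ht.2])
      have e2 : 0 < Real.exp (-B t) := Real.exp_pos _
      nlinarith
  have hu1 : u ≤ T - 1 := by linarith
  have hmain := hanti (Set.mem_Icc.2 ⟨le_refl 0, by linarith⟩) (Set.mem_Icc.2 ⟨hu, hu1⟩) hu
  have hB0 : B 0 = 0 := by simp [B]
  beta_reduce at hmain
  rw [hB0, neg_zero, Real.exp_zero, mul_one] at hmain
  have hN0 : N 0 = if z w = a then ∑ c, law G q θ x0 T (Function.update z w c) else 0 := by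
    rw [hN]
    beta_reduce
    unfold sx
    rw [h.zero, sub_zero, hit_st]
  have hN0' : 0 ≤ N 0 := by
    rw [hN0]
    split_ifs
    · exact Finset.sum_nonneg fun c _ => hlaw T (by linarith) _
    · exact le_refl _
  rw [← hN0]
  have e1 : N u ≤ Real.exp (B u) * N 0 := by
    have e2 : N u = Real.exp (B u) * (N u * Real.exp (-B u)) := by
      rw [mul_comm (N u), ← mul_assoc, ← Real.exp_add]; simp
    rw [e2]
    exact mul_le_mul_of_nonneg_left hmain (Real.exp_pos _).le
  have e3 : B u ≤ c := by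
    have : 0 < Real.exp (-(θ / (2 * q)) * u) := Real.exp_pos _
    show c * (1 - Real.exp (-(θ / (2 * q)) * u)) ≤ c
    nlinarith
  calc N u ≤ Real.exp (B u) * N 0 := e1
    _ ≤ Real.exp c * N 0 := mul_le_mul_of_nonneg_right (Real.exp_le_exp.2 e3) hN0'
    _ = cN q θ Δ η S * N 0 := rfl

end voter

end Pool.Agent.W446.NW.NU
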